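import Pool.Agent.W622.ETG.Stm

/-! ELG-F5 (port of W782.ELT.F5): in case A the bad blocks span. -/

set_option autoImplicit false

namespace Pool.Agent.W917.ELG

open Module Pool.Agent.W622.ETG

theorem om_mem {V : Type} [AddCommGroup V] [Module (ZMod 2) V] {e : V} (A : Fam V) (F : DSub V) :
    om e A F ∈ res A F := by
  unfold om
  split_ifs with h
  · obtain ⟨h1, h2, _⟩ := h.choose_spec
    refine ⟨h1.1, fun a => ?_⟩
    have h3 : h.choose a ∈ sp h.choose := ⟨a, rfl⟩
    rw [← h2] at h3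
    exact h3
  · exact Submodule.zero_mem _

theorem t_F5 (hFIND : S_FIND) (hFDEC : S_FDEC) (hBNT : S_BNT) (hELI : S_ELI) : S_F5 := by
  intro V _ _ _ e A hA
  by_contra h
  have ind := hFIND V e A (BB e A) hA subset_rfl h
  have hbl : ∀ X ∈ GB e A ∪ BB e A, Block e A X := by
    rintro X (hX | hX)
    · exact hX.1
    · exact hX.1
  refine hA.mc.nel (hELI V e A (GB e A ∪ BB e A) ind
    (fun X hX => hA.mc.el X (hBNT V e A X hA.mc (hbl X hX)).1) ?_)
  apply le_antisymm
  · intro ζ hζ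
    obtain ⟨N, hN, _, γ, hγ, rfl⟩ := hFDEC V e A ζ hA hζ
    refine Submodule.add_mem _ ?_ (Submodule.sum_mem _ fun F hF => ?_)
    · have h1 : (⨆ X ∈ GB e A, res A X) ≤ ⨆ X ∈ GB e A ∪ BB e A, res A X :=
        biSup_mono fun X hX => Or.inl hX
      exact h1 hγ
    · have h2 : res A F ≤ ⨆ X ∈ GB e A ∪ BB e A, res A X :=
        le_biSup (fun X => res A X) (Or.inr (hN hF))
      exact h2 (om_mem A F)
  · exact iSup₂_le fun X _ => res_le A X

end Pool.Agent.W917.ELG
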